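import Pool.Agent.W5h16.Biang.Three

/-!
For every `d ≥ 7`, every infinite family of `n` biangular lines in `ℝ^d` has `n ≤ g (d - 1)`, where
`g m` is the largest cardinality of a spherical two-distance set in `ℝ^m`. This is the negated form
of Q1 of the problem: beyond dimension six, continuous families of biangular lines never beat the
lifting construction.
-/

namespace Pool.Agent.Results.MP_0a9180_co.NoLargeFamily

open Pool.Agent.W5h16.Biang

/-- The vectors `x 0, …, x (n-1)` of `ℝ^d` are unit vectors spanning `n` (pairwise distinct)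
biangular lines: the inner products of distinct vectors lie in `{α, -α, β, -β}` for some reals
`α, β`. -/
def SpansBiangularLines {n d : ℕ} (x : Fin n → EuclideanSpace ℝ (Fin d)) : Prop :=
  (∀ i, ‖x i‖ = 1) ∧
  (∀ i j, i ≠ j → Submodule.span ℝ {x i} ≠ Submodule.span ℝ {x j}) ∧
  ∃ α β : ℝ, ∀ i j, i ≠ j → inner ℝ (x i) (x j) ∈ ({α, -α, β, -β} : Set ℝ)

/-- The set of lines spanned by the vectors `x i`. -/
def lines {n d : ℕ} (x : Fin n → EuclideanSpace ℝ (Fin d)) :
    Set (Submodule ℝ (EuclideanSpace ℝ (Fin d))) :=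
  Set.range fun i => Submodule.span ℝ {x i}

/-- `x : ℝ → (Fin n → ℝ^d)`, restricted to the open interval `I`, is an infinite family of `n`
biangular lines in `ℝ^d`: for `h ∈ I` the vectors `x h i` span `n` biangular lines, they depend
continuously on `h ∈ I`, and for `h ≠ h'` in `I` no orthogonal transformation of `ℝ^d` carries the
lines of `x h` onto the lines of `x h'`. -/
def IsInfiniteFamily (n d : ℕ) (I : Set ℝ) (x : ℝ → Fin n → EuclideanSpace ℝ (Fin d)) : Prop :=
  IsOpen I ∧ I.OrdConnected ∧ I.Nonempty ∧ ContinuousOn x I ∧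
  (∀ h ∈ I, SpansBiangularLines (x h)) ∧
  ∀ h ∈ I, ∀ h' ∈ I, h ≠ h' →
    ∀ U : EuclideanSpace ℝ (Fin d) ≃ₗᵢ[ℝ] EuclideanSpace ℝ (Fin d),
      (fun L => Submodule.map U.toLinearEquiv.toLinearMap L) '' lines (x h) ≠ lines (x h')

/-- A spherical two-distance set in `ℝ^m`: a finite set of unit vectors whose inner products between
distinct elements take at most two values. -/
def IsSphericalTwoDistanceSet {m : ℕ} (X : Finset (EuclideanSpace ℝ (Fin m))) : Prop :=
  (∀ x ∈ X, ‖x‖ = 1) ∧
    ∃ α β : ℝ, ∀ x ∈ X, ∀ y ∈ X, x ≠ y → inner ℝ x y = α ∨ inner ℝ x y = β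

/-- The largest cardinality of a spherical two-distance set in `ℝ^m` (see `g_isGreatest`). -/
noncomputable def g (m : ℕ) : ℕ :=
  sSup {k : ℕ | ∃ X : Finset (EuclideanSpace ℝ (Fin m)), IsSphericalTwoDistanceSet X ∧ X.card = k}

lemma card_le {m : ℕ} (X : Finset (EuclideanSpace ℝ (Fin m))) (hX : IsSphericalTwoDistanceSet X) :
    X.card ≤ (m + 1) * (m + 1) := by
  classical
  obtain ⟨h1, α, β, h2⟩ := hX
  have hne1 : ∀ x ∈ X, ∀ y ∈ X, x ≠ y → inner ℝ x y ≠ 1 := by
    intro x hx y hy hxy h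
    exact hxy ((inner_eq_one_iff_of_norm_eq_one (h1 x hx) (h1 y hy)).1 h)
  obtain ⟨α', hα', hα⟩ : ∃ α' : ℝ, α' ≠ 1 ∧ (α ≠ 1 → α' = α) := by
    by_cases h : α = 1
    · exact ⟨0, by norm_num, fun h' => absurd h h'⟩
    · exact ⟨α, h, fun _ => rfl⟩
  obtain ⟨β', hβ', hβ⟩ : ∃ β' : ℝ, β' ≠ 1 ∧ (β ≠ 1 → β' = β) := by
    by_cases h : β = 1
    · exact ⟨0, by norm_num, fun h' => absurd h h'⟩
    · exact ⟨β, h, fun _ => rfl⟩
  have h3 : ∀ x ∈ X, ∀ y ∈ X, x ≠ y → (inner ℝ x y - α') * (inner ℝ x y - β') = 0 := by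
    intro x hx y hy hxy
    have h4 := hne1 x hx y hy hxy
    rcases h2 x hx y hy hxy with h | h
    · rw [hα (by rw [← h]; exact h4), h]; ring
    · rw [hβ (by rw [← h]; exact h4), h]; ring
  by_contra hcon
  push Not at hcon
  let e : EuclideanSpace ℝ (Fin m) → ℝ → Option (Fin m) → ℝ := fun x t c =>
    match c with
    | none => t
    | some c => x c
  have he : ∀ (x y : EuclideanSpace ℝ (Fin m)) (t : ℝ),
      ∑ c, e y (-t) c * e x 1 c = inner ℝ y x - t := by
    intro x y t
    rw [Fintype.sum_option, inner_eq_sum]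
    simp only [e]
    ring
  obtain ⟨v, hv0, hv⟩ := exists_ker (ι := X) (κ := Option (Fin m) × Option (Fin m))
    (fun p x => e x.1 1 p.1 * e x.1 1 p.2) (by simpa using hcon)
  apply hv0
  funext y
  have h5 : ∑ x : X, v x * ((inner ℝ y.1 x.1 - α') * (inner ℝ y.1 x.1 - β')) = 0 := by
    have h6 : ∀ x : X, v x * ((inner ℝ y.1 x.1 - α') * (inner ℝ y.1 x.1 - β')) =
        ∑ p : Option (Fin m) × Option (Fin m), (e y.1 (-α') p.1 * e y.1 (-β') p.2) *
          (v x * (e x.1 1 p.1 * e x.1 1 p.2)) := by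
      intro x
      rw [← he, ← he, Finset.sum_mul_sum, Finset.mul_sum, Fintype.sum_prod_type]
      refine Finset.sum_congr rfl fun c _ => ?_
      rw [Finset.mul_sum]
      refine Finset.sum_congr rfl fun c' _ => ?_
      ring
    simp_rw [h6]
    rw [Finset.sum_comm]
    refine Finset.sum_eq_zero fun p _ => ?_
    rw [← Finset.mul_sum, hv p, mul_zero]
  rw [Finset.sum_eq_single y] at h5
  · rw [real_inner_self_eq_norm_sq, h1 y.1 y.2] at h5
    have h7 : (1 ^ 2 - α') * (1 ^ 2 - β') ≠ 0 := by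
      apply mul_ne_zero
      · intro h; apply hα'; linarith
      · intro h; apply hβ'; linarith
    exact (mul_eq_zero.1 h5).resolve_right h7
  · intro x _ hxy
    rw [h3 y.1 y.2 x.1 x.2 (fun h => hxy (Subtype.ext h.symm)), mul_zero]
  · intro h
    exact absurd (Finset.mem_univ _) h

lemma bddAbove_cards (m : ℕ) : BddAbove {k : ℕ | ∃ X : Finset (EuclideanSpace ℝ (Fin m)),
    IsSphericalTwoDistanceSet X ∧ X.card = k} :=
  ⟨(m + 1) * (m + 1), by rintro k ⟨X, hX, rfl⟩; exact card_le X hX⟩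

/-- `g m` is indeed the largest cardinality of a spherical two-distance set in `ℝ^m`. -/
lemma g_isGreatest (m : ℕ) : IsGreatest {k : ℕ | ∃ X : Finset (EuclideanSpace ℝ (Fin m)),
    IsSphericalTwoDistanceSet X ∧ X.card = k} (g m) := by
  refine ⟨Nat.sSup_mem ⟨0, ∅, ⟨by simp, 0, 0, by simp⟩, by simp⟩ (bddAbove_cards m), ?_⟩
  exact fun k hk => le_csSup (bddAbove_cards m) hk

lemma le_g_of_twoDist {n m : ℕ} (h : TwoDist n m) : n ≤ g m := by
  classical
  obtain ⟨y, hy, h1, p, q, h2⟩ := h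
  apply (g_isGreatest m).2
  refine ⟨Finset.univ.image y, ⟨?_, p, q, ?_⟩, ?_⟩
  · intro x hx
    obtain ⟨i, _, rfl⟩ := Finset.mem_image.1 hx
    exact h1 i
  · intro x hx z hz hxz
    obtain ⟨i, _, rfl⟩ := Finset.mem_image.1 hx
    obtain ⟨j, _, rfl⟩ := Finset.mem_image.1 hz
    exact h2 i j fun h => hxz (by rw [h])
  · rw [Finset.card_image_of_injective _ hy, Finset.card_univ, Fintype.card_fin]

/-- the code of a sign pattern -/
noncomputable def code {n d : ℕ} (x : Fin n → EuclideanSpace ℝ (Fin d)) (α β : ℝ)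
    (i j : Fin n) : Fin 5 := by
  classical
  exact if i = j then 0 else if inner ℝ (x i) (x j) = α then 1 else
    if inner ℝ (x i) (x j) = -α then 2 else if inner ℝ (x i) (x j) = β then 3 else 4

lemma code_symm {n d : ℕ} (x : Fin n → EuclideanSpace ℝ (Fin d)) (α β : ℝ) (i j : Fin n) :
    code x α β i j = code x α β j i := by
  unfold code
  rw [real_inner_comm (x i) (x j)]
  simp only [eq_comm (a := i) (b := j)]

lemma code_diag {n d : ℕ} (x : Fin n → EuclideanSpace ℝ (Fin d)) (α β : ℝ) (i : Fin n) :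
    code x α β i i = 0 := by
  unfold code
  rw [if_pos rfl]

lemma code_off {n d : ℕ} (x : Fin n → EuclideanSpace ℝ (Fin d)) (α β : ℝ) (i j : Fin n)
    (hij : i ≠ j) (h : inner ℝ (x i) (x j) ∈ ({α, -α, β, -β} : Set ℝ)) :
    (code x α β i j = 1 ∧ inner ℝ (x i) (x j) = α) ∨
    (code x α β i j = 2 ∧ inner ℝ (x i) (x j) = -α) ∨
    (code x α β i j = 3 ∧ inner ℝ (x i) (x j) = β) ∨
    (code x α β i j = 4 ∧ inner ℝ (x i) (x j) = -β) := by
  unfold code
  rw [if_neg hij]
  simp only [Set.mem_insert_iff, Set.mem_singleton_iff] at h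
  split_ifs with h1 h2 h3
  · exact Or.inl ⟨rfl, h1⟩
  · exact Or.inr (Or.inl ⟨rfl, h2⟩)
  · exact Or.inr (Or.inr (Or.inl ⟨rfl, h3⟩))
  · refine Or.inr (Or.inr (Or.inr ⟨rfl, ?_⟩))
    tauto

/-- **Main theorem.** For every `d ≥ 7`, every infinite family of `n` biangular lines in `ℝ^d`
satisfies `n ≤ g (d - 1)`. -/
theorem result : ∀ d : ℕ, 7 ≤ d → ∀ (n : ℕ) (I : Set ℝ)
    (x : ℝ → Fin n → EuclideanSpace ℝ (Fin d)), IsInfiniteFamily n d I x → n ≤ g (d - 1) := by
  classical
  intro d hd n I x hfam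
  obtain ⟨hopen, _, ⟨h0, hh0⟩, _, hbi, hiso⟩ := hfam
  -- the small case
  by_cases hn : 2 * n ≤ d * (d - 1)
  · apply le_g_of_twoDist
    apply (twoDist_choose (d := d) (by omega)).mono
    rw [Nat.choose_two_right]
    omega
  push Not at hn
  apply le_g_of_twoDist
  -- the interval is infinite
  have hinf : I.Infinite := infinite_of_mem_nhds h0 (hopen.mem_nhds hh0)
  have : Infinite I := hinf.to_subtype
  -- choose the parameters
  choose hunit hlines αf βf hαβ using hbi
  let F : I → (Fin n → Fin n → Fin 5) := fun h => code (x h) (αf h h.2) (βf h h.2)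
  obtain ⟨κ, hκ⟩ := Finite.exists_infinite_fiber F
  have hκ' : (F ⁻¹' {κ}).Infinite := Set.infinite_coe_iff.1 hκ
  obtain ⟨t, ht, htc⟩ := hκ'.exists_subset_card_eq 3
  obtain ⟨a, b, c, hab, hac, hbc, rfl⟩ := Finset.card_eq_three.1 htc
  have hFa : F a = κ := ht (by simp)
  have hFb : F b = κ := ht (by simp)
  have hFc : F c = κ := ht (by simp)
  let hs : Fin 3 → I := ![a, b, c]
  have hsF : ∀ k, F (hs k) = κ := by
    intro k
    fin_cases k
    · exact hFa
    · exact hFb
    · exact hFc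
  have hsne : ∀ k l, k ≠ l → hs k ≠ hs l := by
    intro k l hkl
    fin_cases k <;> fin_cases l <;> simp_all [hs, Ne.symm hab, Ne.symm hac, Ne.symm hbc]
  have hκoff : ∀ i j, i ≠ j → κ i j = 1 ∨ κ i j = 2 ∨ κ i j = 3 ∨ κ i j = 4 := by
    intro i j hij
    have := code_off (x a) (αf a a.2) (βf a a.2) i j hij (hαβ a a.2 i j hij)
    have e : κ i j = code (x a) (αf a a.2) (βf a a.2) i j := by rw [← hFa]
    rw [e]
    rcases this with h | h | h | h
    · exact Or.inl h.1
    · exact Or.inr (Or.inl h.1)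
    · exact Or.inr (Or.inr (Or.inl h.1))
    · exact Or.inr (Or.inr (Or.inr h.1))
  have hκd : ∀ i, κ i i = 0 := by
    intro i
    rw [← hFa]; exact code_diag _ _ _ i
  have hκs : ∀ i j, κ i j = κ j i := by
    intro i j
    rw [← hFa]; exact code_symm _ _ _ i j
  let P : Pattern n :=
    { A := fun i j => (![0, 1, -1, 0, 0] : Fin 5 → ℝ) (κ i j)
      B := fun i j => (![0, 0, 0, 1, -1] : Fin 5 → ℝ) (κ i j)
      hAB := by
        intro i j hij
        rcases hκoff i j hij with h | h | h | h <;> simp [h]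
      hA0 := by intro i; simp [hκd i]
      hB0 := by intro i; simp [hκd i]
      hAs := by intro i j; rw [hκs i j]
      hBs := by intro i j; rw [hκs i j] }
  refine three_systems hd hn P (fun k => x (hs k)) (fun k => αf (hs k) (hs k).2)
    (fun k => βf (hs k) (hs k).2) ?_ ?_ ?_
  · intro k i j
    by_cases hij : i = j
    · subst hij
      simp only [P, hκd, if_true]
      rw [real_inner_self_eq_norm_sq, hunit (hs k) (hs k).2 i]
      simp
    · have h1 := code_off (x (hs k)) (αf (hs k) (hs k).2) (βf (hs k) (hs k).2) i j hij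
        (hαβ (hs k) (hs k).2 i j hij)
      have e : code (x (hs k)) (αf (hs k) (hs k).2) (βf (hs k) (hs k).2) i j = κ i j := by
        rw [← hsF k]
      rw [e] at h1
      rw [if_neg hij]
      rcases h1 with ⟨g1, g2⟩ | ⟨g1, g2⟩ | ⟨g1, g2⟩ | ⟨g1, g2⟩ <;>
        simp only [P, g1, g2] <;> simp
  · intro k l hkl
    by_contra hcon
    push Not at hcon
    obtain ⟨U, hU⟩ := gram_iso (x (hs k)) (x (hs l)) hcon
    refine hiso (hs k) (hs k).2 (hs l) (hs l).2 (fun h => hsne k l hkl (Subtype.ext h)) U ?_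
    unfold lines
    rw [← Set.range_comp]
    congr 1
    funext i
    simp only [Function.comp]
    rw [Submodule.map_span, Set.image_singleton]
    congr 2
    exact hU i
  · intro k i j hij
    have hu := hunit (hs k) (hs k).2
    have hl := hlines (hs k) (hs k).2 i j hij
    have hle : |inner ℝ (x (hs k) i) (x (hs k) j)| ≤ 1 := by
      have := abs_real_inner_le_norm (x (hs k) i) (x (hs k) j)
      rw [hu i, hu j, mul_one] at this
      exact this
    apply lt_of_le_of_ne hle
    intro h1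
    have hi0 : x (hs k) i ≠ 0 := by
      intro h; have := hu i; rw [h, norm_zero] at this; exact zero_ne_one this
    have hj0 : x (hs k) j ≠ 0 := by
      intro h; have := hu j; rw [h, norm_zero] at this; exact zero_ne_one this
    have h2 : |inner ℝ (x (hs k) i) (x (hs k) j) / (‖x (hs k) i‖ * ‖x (hs k) j‖)| = 1 := by
      rw [hu i, hu j]; simpa using h1
    rw [abs_real_inner_div_norm_mul_norm_eq_one_iff] at h2
    obtain ⟨_, r, hr0, hr⟩ := h2
    apply hl
    rw [hr]
    exact (Submodule.span_singleton_smul_eq (IsUnit.mk0 r hr0) _).symm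

end Pool.Agent.Results.MP_0a9180_co.NoLargeFamily
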